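import Pool.Agent.W940.LSD.Stm

/-!
# Project LS, part DENS: the deterministic lower bound (DET)
-/

set_option autoImplicit false

namespace Pool.Agent.W535.LSD

open Finset Filter Pool.Agent.W307.LS Pool.Agent.W940.LSD

open scoped Classical

/-- the primes whose squares divide `a b` -/
noncomputable def Mset (a b : ℤ) : Finset ℕ :=
  (a * b).natAbs.primeFactors.filter (fun p => p ≠ 2 ∧ (p : ℤ) ^ 2 ∣ a * b)

lemma mem_bind' {α β : Type} (s : Finset α) (f : α → Finset β) (x : β) :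
    x ∈ (s >>= f) ↔ ∃ a ∈ s, x ∈ f a := by
  have h := congrFun (congrFun (Finset.bind_def (α := β) (β := α)) s) f
  beta_reduce at h
  rw [h, Finset.mem_sup]

/-- `MM` counts in `ℤ` (its definition elaborates through the monad structure of `Finset`) -/
lemma MM_eq (a b : ℤ) : MM a b = (Mset a b).card := by
  unfold MM Mset
  symm
  apply Finset.card_bij (fun (p : ℕ) _ => (p : ℤ))
  · intro p hp
    rw [mem_filter] at hp
    rw [mem_filter]
    refine ⟨?_, ?_, hp.2.2⟩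
    · rw [mem_bind']
      exact ⟨p, hp.1, Finset.mem_singleton_self _⟩
    · exact_mod_cast hp.2.1
  · intro p _ q _ h
    exact_mod_cast h
  · intro x hx
    rw [mem_filter] at hx
    obtain ⟨h1, h2, h3⟩ := hx
    rw [mem_bind'] at h1
    obtain ⟨p, hp, hpx⟩ := h1
    rw [Finset.pure_def, Finset.mem_singleton] at hpx
    subst hpx
    refine ⟨p, ?_, rfl⟩
    rw [mem_filter]
    refine ⟨hp, ?_, h3⟩
    exact_mod_cast h2

lemma mem_PP {y p : ℕ} : p ∈ PP y ↔ p ≤ y ∧ p.Prime ∧ p ≠ 2 := by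
  simp [PP]

lemma mem_pf {n : ℤ} (hn : n ≠ 0) {p : ℕ} : p ∈ n.natAbs.primeFactors ↔ p.Prime ∧ (p : ℤ) ∣ n := by
  rw [Nat.mem_primeFactors, Int.natCast_dvd]
  constructor
  · rintro ⟨h1, h2, _⟩
    exact ⟨h1, h2⟩
  · rintro ⟨h1, h2⟩
    exact ⟨h1, h2, Int.natAbs_ne_zero.mpr hn⟩

lemma part1 (y : ℕ) (a b : ℤ) (ha : a ≠ 0) (hb : b ≠ 0) :
    ww y a + ww y b ≤ (SS a b).card + 2 * MM a b := by
  have hab : a * b ≠ 0 := mul_ne_zero ha hb
  set A := (PP y).filter (fun p : ℕ => (p : ℤ) ∣ a) with hA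
  set B := (PP y).filter (fun p : ℕ => (p : ℤ) ∣ b) with hB
  have h1 : A ∪ B ⊆ SS a b ∪ Mset a b := by
    intro p hp
    rw [mem_union, hA, hB, mem_filter, mem_filter, mem_PP] at hp
    have hpr : p.Prime ∧ p ≠ 2 ∧ (p : ℤ) ∣ a * b := by
      rcases hp with ⟨⟨_, h1, h2⟩, h3⟩ | ⟨⟨_, h1, h2⟩, h3⟩
      · exact ⟨h1, h2, Dvd.dvd.mul_right h3 b⟩
      · exact ⟨h1, h2, Dvd.dvd.mul_left h3 a⟩
    rw [mem_union]
    by_cases hsq : (p : ℤ) ^ 2 ∣ a * b
    · right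
      rw [Mset, mem_filter, mem_pf hab]
      exact ⟨⟨hpr.1, hpr.2.2⟩, hpr.2.1, hsq⟩
    · left
      rw [SS, mem_filter, mem_pf hab]
      exact ⟨⟨hpr.1, hpr.2.2⟩, hpr.2.1, hsq⟩
  have h2 : A ∩ B ⊆ Mset a b := by
    intro p hp
    rw [mem_inter, hA, hB, mem_filter, mem_filter, mem_PP] at hp
    obtain ⟨⟨⟨_, h1, h2⟩, h3⟩, ⟨_, h4⟩⟩ := hp
    rw [Mset, mem_filter, mem_pf hab]
    refine ⟨⟨h1, Dvd.dvd.mul_right h3 b⟩, h2, ?_⟩
    rw [pow_two]
    exact mul_dvd_mul h3 h4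
  have h3 := card_union_add_card_inter A B
  have h4 := card_le_card h1
  have h5 := card_le_card h2
  have h6 := card_union_le (SS a b) (Mset a b)
  have h7 := MM_eq a b
  have h8 : ww y a = A.card := rfl
  have h9 : ww y b = B.card := rfl
  rw [h7, h8, h9]
  omega

/-- the primes larger than `y` that divide `n` -/
noncomputable def Kset (y : ℕ) (n : ℤ) : Finset ℕ :=
  n.natAbs.primeFactors.filter (fun q => y < q)

/-- the primes up to `y` dividing `a - b` with symbol `1` -/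
noncomputable def Cset (y : ℕ) (a b : ℤ) : Finset ℕ :=
  ((PP y).filter (fun p : ℕ => (p : ℤ) ∣ a - b)).filter (fun q => jacobiSym a q = 1)

lemma part2 (y : ℕ) (a b : ℤ) (ha : a ≠ 0) (hb : b ≠ 0) (hab : a ≠ b) :
    (BB a b).card ≤ MM a b + (Cset y a b).card + (Kset y (a - b)).card := by
  have h0 : a * b ≠ 0 := mul_ne_zero ha hb
  have h1 : a - b ≠ 0 := sub_ne_zero.mpr hab
  have h2 : a * b * (a - b) ≠ 0 := mul_ne_zero h0 h1
  have hsub : BB a b ⊆ (Mset a b ∪ Cset y a b) ∪ Kset y (a - b) := by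
    intro q hq
    rw [BB, mem_filter, mem_pf h2] at hq
    obtain ⟨⟨hq1, _⟩, hq2, hq3⟩ := hq
    rw [mem_union, mem_union]
    rcases hq3 with hsq | ⟨h3, h4, h5⟩
    · left; left
      rw [Mset, mem_filter, mem_pf h0]
      exact ⟨⟨hq1, (dvd_pow_self (q : ℤ) two_ne_zero).trans hsq⟩, hq2, hsq⟩
    · by_cases hy : q ≤ y
      · left; right
        rw [Cset, mem_filter, mem_filter, mem_PP]
        exact ⟨⟨⟨hy, hq1, hq2⟩, h3⟩, h5⟩
      · right
        rw [Kset, mem_filter, mem_pf h1]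
        exact ⟨⟨hq1, h3⟩, by omega⟩
  have h3 := card_le_card hsub
  have h4 := card_union_le (Mset a b ∪ Cset y a b) (Kset y (a - b))
  have h5 := card_union_le (Mset a b) (Cset y a b)
  have h7 := MM_eq a b
  rw [h7]
  omega

lemma part2b (y : ℕ) (a b : ℤ) :
    ((Cset y a b).card : ℝ) ≤ ((ww y (a - b) : ℝ) + VV y a b) / 2 := by
  have h1 : ((Cset y a b).card : ℝ) =
      ∑ q ∈ (PP y).filter (fun p : ℕ => (p : ℤ) ∣ a - b), (if jacobiSym a q = 1 then (1 : ℝ) else 0) := by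
    rw [Cset, card_filter]
    push_cast
    rfl
  have h2 : (ww y (a - b) : ℝ) = ∑ q ∈ (PP y).filter (fun p : ℕ => (p : ℤ) ∣ a - b), (1 : ℝ) := by
    rw [sum_const, nsmul_eq_mul, mul_one]
    rfl
  rw [h1, h2, VV, ← sum_add_distrib, sum_div]
  apply sum_le_sum
  intro q _
  rcases jacobiSym.trichotomy a q with h | h | h
  · rw [h]; norm_num
  · rw [h]; norm_num
  · rw [h]; norm_num

lemma lt_yy (T : ℕ) : T < (yy T + 1) ^ 8 := by
  have h1 : T < (T.sqrt + 1) ^ 2 := Nat.lt_succ_sqrt' T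
  have h2 : T.sqrt < (T.sqrt.sqrt + 1) ^ 2 := Nat.lt_succ_sqrt' T.sqrt
  have h3 : T.sqrt.sqrt < (T.sqrt.sqrt.sqrt + 1) ^ 2 := Nat.lt_succ_sqrt' T.sqrt.sqrt
  calc T < (T.sqrt + 1) ^ 2 := h1
    _ ≤ ((T.sqrt.sqrt + 1) ^ 2) ^ 2 := Nat.pow_le_pow_left h2 2
    _ ≤ (((T.sqrt.sqrt.sqrt + 1) ^ 2) ^ 2) ^ 2 :=
        Nat.pow_le_pow_left (Nat.pow_le_pow_left h3 2) 2
    _ = (yy T + 1) ^ 8 := by rw [yy]; ring

lemma part3 (T : ℕ) (hT : 1 ≤ T) (a b : ℤ) (ha : |a| ≤ T) (hb : |b| ≤ T) (hab : a ≠ b) :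
    (Kset (yy T) (a - b)).card ≤ 9 := by
  have h1 : a - b ≠ 0 := sub_ne_zero.mpr hab
  by_contra hc
  push Not at hc
  have hy : 1 ≤ yy T := by
    rw [yy]
    have e1 : 1 ≤ T.sqrt := Nat.sqrt_pos.mpr hT
    have e2 : 1 ≤ T.sqrt.sqrt := Nat.sqrt_pos.mpr e1
    exact Nat.sqrt_pos.mpr e2
  have h2 : (yy T + 1) ^ (Kset (yy T) (a - b)).card ≤ ∏ q ∈ Kset (yy T) (a - b), q := by
    apply Finset.pow_card_le_prod
    intro q hq
    rw [Kset, mem_filter] at hq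
    exact hq.2
  have h3 : ∏ q ∈ Kset (yy T) (a - b), q ∣ (a - b).natAbs :=
    (Finset.prod_dvd_prod_of_subset _ _ _ (filter_subset _ _)).trans (Nat.prod_primeFactors_dvd _)
  have h4 : (∏ q ∈ Kset (yy T) (a - b), q) ≤ (a - b).natAbs :=
    Nat.le_of_dvd (Int.natAbs_pos.mpr h1) h3
  have h5 : (a - b).natAbs ≤ 2 * T := by
    have := abs_le.mp ha
    have := abs_le.mp hb
    omega
  have h6 : (yy T + 1) ^ 9 ≤ (yy T + 1) ^ (Kset (yy T) (a - b)).card :=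
    Nat.pow_le_pow_right (by omega) (by omega)
  have h7 := lt_yy T
  have h8 : 2 * (yy T + 1) ^ 8 ≤ (yy T + 1) ^ 9 := by
    rw [pow_succ (yy T + 1) 8, mul_comm 2]
    exact Nat.mul_le_mul_left _ (by omega)
  omega

/-- DET: the deterministic lower bound -/
theorem det : DET := by
  rw [DET]
  filter_upwards [eventually_ge_atTop 1] with T hT t ht
  rw [Bx, mem_filter, mem_product, mem_Icc, mem_Icc] at ht
  obtain ⟨⟨ha, hb⟩, ha0, hb0, hab⟩ := ht
  have e1 := part1 (yy T) t.1 t.2 ha0 hb0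
  have e2 := part2 (yy T) t.1 t.2 ha0 hb0 hab
  have e3 := part2b (yy T) t.1 t.2
  have e4 := part3 T hT t.1 t.2 (abs_le.mpr ha) (abs_le.mpr hb) hab
  have e1' : (ww (yy T) t.1 : ℝ) + ww (yy T) t.2 ≤ (SS t.1 t.2).card + 2 * MM t.1 t.2 := by
    exact_mod_cast e1
  have e2' : ((BB t.1 t.2).card : ℝ) ≤
      MM t.1 t.2 + (Cset (yy T) t.1 t.2).card + (Kset (yy T) (t.1 - t.2)).card := by
    exact_mod_cast e2
  have e4' : ((Kset (yy T) (t.1 - t.2)).card : ℝ) ≤ 9 := by exact_mod_cast e4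
  rw [gg]
  linarith

end Pool.Agent.W535.LSD
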